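import Pool.Agent.Lib.MP_182bbb_co.AR.Iface

/-!
# MP_182bbb_co, board `ar`: module LIM
-/

open Finset MP_182bbb_co.H5

namespace MP_182bbb_co.AR

open Filter Asymptotics Topology in
/-- module LIM -/
theorem lim : LIM_S := by
  intro r N hr
  set k := r - 1 with hk
  have h1 : (fun n : ℕ => (n.choose k : ℝ)) ~[atTop] fun n => ((n : ℝ) ^ k / k.factorial) :=
    isEquivalent_choose k
  have h2 : Tendsto (fun n : ℕ => n - N) atTop atTop := tendsto_sub_atTop_nat N
  have h3 : (fun n : ℕ => ((n - N).choose k : ℝ)) ~[atTop]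
      fun n => (((n - N : ℕ) : ℝ) ^ k / k.factorial) := h1.comp_tendsto h2
  have h4 : (fun n : ℕ => ((n - N).choose k : ℝ) / (n.choose k : ℝ)) ~[atTop]
      fun n => (((n - N : ℕ) : ℝ) ^ k / k.factorial) / ((n : ℝ) ^ k / k.factorial) := h3.div h1
  have h5 : Tendsto (fun n : ℕ => (((n - N : ℕ) : ℝ) ^ k / k.factorial) /
      ((n : ℝ) ^ k / k.factorial)) atTop (𝓝 1) := by
    have h6 : Tendsto (fun n : ℕ => (1 - (N : ℝ) / (n : ℝ)) ^ k) atTop (𝓝 1) := by
      have h7 : Tendsto (fun n : ℕ => 1 - (N : ℝ) / (n : ℝ)) atTop (𝓝 (1 - 0)) :=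
        tendsto_const_nhds.sub (tendsto_const_div_atTop_nhds_zero_nat (N : ℝ))
      have h8 := h7.pow k
      simpa using h8
    refine h6.congr' ?_
    filter_upwards [eventually_ge_atTop (N + 1)] with n hn
    have hn0 : (n : ℝ) ≠ 0 := by
      have : 0 < n := by omega
      positivity
    have hf : (k.factorial : ℝ) ≠ 0 := by positivity
    rw [Nat.cast_sub (by omega : N ≤ n), div_div_div_cancel_right₀ hf, ← div_pow]
    congr 1
    field_simp
  have h9 := (h4.tendsto_nhds_iff).2 h5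
  have h10 := h9.const_mul (N : ℝ)
  rw [mul_one] at h10
  refine h10.congr fun n => ?_
  push_cast
  ring

end MP_182bbb_co.AR
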