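import Pool.Agent.Lib.MP_182bbb_co.AR.Iface

/-!
# MP_182bbb_co, board `ar`: module PAGES
-/

open Finset MP_182bbb_co.H5

namespace MP_182bbb_co.AR.H30

universe u v

theorem exists_bij {α : Type u} {V : Type v} [DecidableEq α] [DecidableEq V] (s : Finset α)
    (t : Finset V) (h : s.card = t.card) (v0 : V) :
    ∃ g : α → V, Set.InjOn g (s : Set α) ∧ s.image g = t := by
  classical
  have e := Finset.equivOfCardEq h
  refine ⟨fun a => if ha : a ∈ s then (e ⟨a, ha⟩).1 else v0, ?_, ?_⟩
  · intro a ha b hb hab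
    rw [mem_coe] at ha hb
    simp only [ha, hb, dite_true] at hab
    have := e.injective (Subtype.ext hab)
    exact congrArg Subtype.val this
  · ext v
    rw [mem_image]
    constructor
    · rintro ⟨a, ha, rfl⟩
      simp only [ha, dite_true]
      exact (e ⟨a, ha⟩).2
    · intro hv
      refine ⟨(e.symm ⟨v, hv⟩).1, (e.symm ⟨v, hv⟩).2, ?_⟩
      simp

theorem sum_image_le' {ι κ : Type*} [DecidableEq κ] (s : Finset ι) (g : ι → κ) (F : κ → ℝ)
    (hF : ∀ p, 0 ≤ F p) : ∑ p ∈ s.image g, F p ≤ ∑ a ∈ s, F (g a) := by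
  rw [Finset.sum_comp F g]
  refine Finset.sum_le_sum fun p hp => ?_
  obtain ⟨a, ha, rfl⟩ := mem_image.1 hp
  have h1 : 1 ≤ (s.filter fun b => g b = g a).card :=
    Finset.card_pos.2 ⟨a, mem_filter.2 ⟨ha, rfl⟩⟩
  rw [nsmul_eq_mul]
  have h2 : (1 : ℝ) ≤ ((s.filter fun b => g b = g a).card : ℝ) := by exact_mod_cast h1
  nlinarith [hF (g a)]

theorem mem_lk {V : Type*} [Fintype V] [DecidableEq V] {G : Finset (Finset V)} {f : Finset V}
    {c : V} : c ∈ lk G f ↔ c ∉ f ∧ insert c f ∈ G := by
  unfold lk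
  simp

/-- module PAGES -/
theorem pages (hHall : HALL_S.{u, v}) : PAGES_S.{u, v} := by
  intro α V _ _ _ r H G hr hbook hG hno f hf C hC hCcard
  by_contra hlt
  push Not at hlt
  apply hno
  obtain ⟨hne, hunif, q, hq, hqe⟩ := hbook
  set W := verts H \ q with hW
  have hWe : ∀ e ∈ H, ∃ v ∈ W, e = insert v q := by
    intro e he
    have h1 : (e \ q).card = 1 := by
      rw [card_sdiff_of_subset (hqe e he), hunif e he]
      omega
    obtain ⟨v, hv⟩ := card_eq_one.1 h1
    have hve : v ∈ e \ q := by rw [hv]; exact mem_singleton_self v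
    refine ⟨v, ?_, ?_⟩
    · rw [hW, mem_sdiff]
      exact ⟨mem_verts.2 ⟨e, he, (mem_sdiff.1 hve).1⟩, (mem_sdiff.1 hve).2⟩
    · rw [insert_eq, ← hv, sdiff_union_of_subset (hqe e he)]
  have hWm : ∀ v ∈ W, insert v q ∈ H := by
    intro v hv
    rw [hW, mem_sdiff] at hv
    obtain ⟨e, he, hve⟩ := mem_verts.1 hv.1
    obtain ⟨v', hv', rfl⟩ := hWe e he
    rcases mem_insert.1 hve with rfl | h
    · exact he
    · exact absurd h hv.2
  have hWq : ∀ v ∈ W, v ∉ q := fun v hv => (mem_sdiff.1 hv).2
  have hWcard : W.card = H.card := by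
    refine card_bij (fun v _ => insert v q) hWm ?_ ?_
    · intro v hv v' hv' h
      have h1 : v ∈ insert v' q := by
        rw [← h]; exact mem_insert_self v q
      rcases mem_insert.1 h1 with h2 | h2
      · exact h2
      · exact absurd h2 (hWq v hv)
    · intro e he
      obtain ⟨v, hv, rfl⟩ := hWe e he
      exact ⟨v, hv, rfl⟩
  have hCpos : 0 < C.card := by
    rw [hCcard]
    exact card_pos.2 hne
  obtain ⟨v0, -⟩ := card_pos.1 hCpos
  obtain ⟨g1, hg1, hg1'⟩ := exists_bij q f (by omega) v0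
  obtain ⟨g2, hg2, hg2'⟩ := exists_bij W C (by rw [hWcard, hCcard]) v0
  have hCf : ∀ c ∈ C, c ∉ f := fun c hc => (mem_lk.1 (hC hc)).1
  set g : α → V := fun a => if a ∈ q then g1 a else g2 a with hg
  have hgq : ∀ a ∈ q, g a = g1 a := fun a ha => by rw [hg]; simp [ha]
  have hgW : ∀ a ∈ W, g a = g2 a := fun a ha => by rw [hg]; simp [hWq a ha]
  have hgqf : ∀ a ∈ q, g a ∈ f := fun a ha => by
    rw [hgq a ha, ← hg1']; exact mem_image_of_mem _ ha
  have hgWC : ∀ a ∈ W, g a ∈ C := fun a ha => by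
    rw [hgW a ha, ← hg2']; exact mem_image_of_mem _ ha
  have hcase : ∀ a ∈ verts H, a ∈ q ∨ a ∈ W := by
    intro a ha
    by_cases h : a ∈ q
    · exact Or.inl h
    · exact Or.inr (mem_sdiff.2 ⟨ha, h⟩)
  have hginj : Set.InjOn g (verts H : Set α) := by
    intro a ha b hb hab
    rw [mem_coe] at ha hb
    rcases hcase a ha with h1 | h1 <;> rcases hcase b hb with h2 | h2
    · rw [hgq a h1, hgq b h2] at hab
      exact hg1 h1 h2 hab
    · have h3 : g b ∈ f := by rw [← hab]; exact hgqf a h1
      exact absurd h3 (hCf _ (hgWC b h2))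
    · have h3 : g a ∈ f := by rw [hab]; exact hgqf b h2
      exact absurd h3 (hCf _ (hgWC a h1))
    · rw [hgW a h1, hgW b h2] at hab
      exact hg2 h1 h2 hab
  have himg : (verts H).image g ⊆ f ∪ C := by
    intro y hy
    obtain ⟨a, ha, rfl⟩ := mem_image.1 hy
    rcases hcase a ha with h1 | h1
    · exact mem_union_left _ (hgqf a h1)
    · exact mem_union_right _ (hgWC a h1)
  have hqimg : q.image g = f := by
    rw [← hg1']
    exact image_congr fun a ha => hgq a ha
  have hWimg : W.image g = C := by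
    rw [← hg2']
    exact image_congr fun a ha => hgW a ha
  -- the terms
  set F : Finset α → ℝ := fun p =>
    (1 : ℝ) / ((lk G (p.image g) \ (verts H).image g).card + 1) with hF
  have hF0 : ∀ p, 0 ≤ F p := fun p => by rw [hF]; positivity
  have hFle : ∀ (p : Finset α) (D : ℝ), 0 < D →
      D ≤ ((lk G (p.image g) \ (f ∪ C)).card : ℝ) + 1 → F p ≤ 1 / D := by
    intro p D hD hle
    rw [hF]
    have h1 : ((lk G (p.image g) \ (f ∪ C)).card : ℝ) ≤
        ((lk G (p.image g) \ (verts H).image g).card : ℝ) := by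
      exact_mod_cast card_le_card (sdiff_subset_sdiff Subset.rfl himg)
    exact one_div_le_one_div_of_le hD (by linarith)
  -- the facet `q`
  have hFq : F q ≤ (1 : ℝ) / ((dg G f : ℝ) - H.card + 1) := by
    have h1 : C.card ≤ dg G f := card_le_card hC
    have h2 : (lk G (q.image g) \ (f ∪ C)).card + H.card = dg G f := by
      rw [hqimg, ← hCcard]
      have h3 : lk G f \ (f ∪ C) = lk G f \ C := by
        ext y
        rw [mem_sdiff, mem_sdiff, mem_union]
        constructor
        · rintro ⟨h4, h5⟩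
          exact ⟨h4, fun h => h5 (Or.inr h)⟩
        · rintro ⟨h4, h5⟩
          refine ⟨h4, ?_⟩
          rintro (h | h)
          · exact (mem_lk.1 h4).1 h
          · exact h5 h
      rw [h3, card_sdiff_add_card_eq_card hC]
      rfl
    have h3 : (dg G f : ℝ) = ((lk G (q.image g) \ (f ∪ C)).card : ℝ) + (H.card : ℝ) := by
      exact_mod_cast h2.symm
    refine hFle q _ ?_ ?_
    · rw [h3]
      have : (0 : ℝ) ≤ ((lk G (q.image g) \ (f ∪ C)).card : ℝ) := by positivity
      linarith
    · rw [h3]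
      linarith
  -- the other facets
  have hFp : ∀ v ∈ W, ∀ x ∈ q, F (insert v (q.erase x)) ≤ (1 : ℝ) /
      ((dg G (insert (g v) (f.erase (g x))) : ℝ) -
        (lk G (insert (g v) (f.erase (g x))) ∩ C.erase (g v)).card) := by
    intro v hv x hx
    have himage : (insert v (q.erase x)).image g = insert (g v) (f.erase (g x)) := by
      rw [image_insert]
      congr 1
      rw [← hqimg]
      ext y
      simp only [mem_image, mem_erase]
      constructor
      · rintro ⟨a, ⟨ha1, ha2⟩, rfl⟩
        refine ⟨fun h => ha1 ?_, a, ha2, rfl⟩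
        rw [hgq a ha2, hgq x hx] at h
        exact hg1 ha2 hx h
      · rintro ⟨h1, a, ha, rfl⟩
        exact ⟨a, ⟨fun h => h1 (by rw [h]), ha⟩, rfl⟩
    set c := g v with hc
    set y := g x with hy
    set P := lk G (insert c (f.erase y)) with hP
    have hcC : c ∈ C := hgWC v hv
    have hyf : y ∈ f := hgqf x hx
    have hyP : y ∈ P := by
      rw [hP, mem_lk]
      refine ⟨?_, ?_⟩
      · rw [mem_insert, mem_erase]
        rintro (h | h)
        · exact hCf c hcC (h ▸ hyf)
        · exact h.1 rfl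
      · rw [insert_comm, insert_erase hyf]
        exact (mem_lk.1 (hC hcC)).2
    have hyC : y ∉ C := fun h => hCf y h hyf
    have hsub : P ∩ (f ∪ C) ⊆ insert y (P ∩ C.erase c) := by
      intro z hz
      rw [mem_inter, mem_union] at hz
      rw [mem_insert, mem_inter, mem_erase]
      have hzP := mem_lk.1 hz.1
      have hz1 := hzP.1
      rw [mem_insert, mem_erase, not_or] at hz1
      rcases hz.2 with h | h
      · left
        by_contra hne
        exact hz1.2 ⟨hne, h⟩
      · right
        exact ⟨hz.1, hz1.1, h⟩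
    have hcard1 : (P ∩ (f ∪ C)).card ≤ (P ∩ C.erase c).card + 1 :=
      (card_le_card hsub).trans (card_insert_le _ _)
    have hcard2 : (P \ (f ∪ C)).card + (P ∩ (f ∪ C)).card = P.card := card_sdiff_add_card_inter _ _
    have hcard3 : (P ∩ C.erase c).card + 1 ≤ P.card := by
      have h1 : insert y (P ∩ C.erase c) ⊆ P := insert_subset hyP inter_subset_left
      have h2 : y ∉ P ∩ C.erase c := fun h =>
        hyC (mem_of_mem_erase (mem_inter.1 h).2)
      rw [← card_insert_of_notMem h2]
      exact card_le_card h1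
    have hdg : dg G (insert c (f.erase y)) = P.card := rfl
    rw [hdg]
    have hcard3' : ((P ∩ C.erase c).card : ℝ) + 1 ≤ (P.card : ℝ) := by exact_mod_cast hcard3
    have hcard4 : (P.card : ℝ) ≤ ((P \ (f ∪ C)).card : ℝ) + ((P ∩ C.erase c).card : ℝ) + 1 := by
      have : P.card ≤ (P \ (f ∪ C)).card + (P ∩ C.erase c).card + 1 := by omega
      exact_mod_cast this
    refine hFle _ _ (by linarith) ?_
    rw [himage]
    change (P.card : ℝ) - ((P ∩ C.erase c).card : ℝ) ≤ ((P \ (f ∪ C)).card : ℝ) + 1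
    linarith
  -- the shadow
  have hsh : H5.shadow H ⊆ insert q ((W ×ˢ q).image fun p => insert p.1 (q.erase p.2)) := by
    intro p hp
    unfold H5.shadow at hp
    rw [mem_biUnion] at hp
    obtain ⟨e, he, hp⟩ := hp
    obtain ⟨x, hx, rfl⟩ := mem_image.1 hp
    obtain ⟨v, hv, rfl⟩ := hWe e he
    rcases mem_insert.1 hx with rfl | hx
    · rw [erase_insert (hWq x hv)]
      exact mem_insert_self _ _
    · refine mem_insert_of_mem (mem_image.2 ⟨(v, x), mem_product.2 ⟨hv, hx⟩, ?_⟩)
      have hne : v ≠ x := fun h => hWq v hv (h ▸ hx)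
      exact (erase_insert_of_ne hne).symm
  have hshne : (H5.shadow H).Nonempty := by
    obtain ⟨e, he⟩ := hne
    have hec : e.card = r := hunif e he
    obtain ⟨x, hx⟩ : e.Nonempty := by
      rw [← card_pos]
      omega
    refine ⟨e.erase x, ?_⟩
    unfold H5.shadow
    exact mem_biUnion.2 ⟨e, he, mem_image.2 ⟨x, hx, rfl⟩⟩
  refine hHall α V H G g hginj hshne ?_
  calc ∑ p ∈ H5.shadow H, F p
      ≤ ∑ p ∈ insert q ((W ×ˢ q).image fun p => insert p.1 (q.erase p.2)), F p :=
        sum_le_sum_of_subset_of_nonneg hsh fun p _ _ => hF0 p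
    _ ≤ F q + ∑ p ∈ (W ×ˢ q).image fun p => insert p.1 (q.erase p.2), F p := by
        by_cases hqm : q ∈ (W ×ˢ q).image fun p => insert p.1 (q.erase p.2)
        · rw [insert_eq_of_mem hqm]
          linarith [hF0 q]
        · rw [sum_insert hqm]
    _ ≤ F q + ∑ a ∈ W ×ˢ q, F (insert a.1 (q.erase a.2)) := by
        have := sum_image_le' (W ×ˢ q) (fun p : α × α => insert p.1 (q.erase p.2)) F hF0
        linarith
    _ ≤ (1 : ℝ) / ((dg G f : ℝ) - H.card + 1) +
        ∑ v ∈ W, ∑ x ∈ q, (1 : ℝ) /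
      ((dg G (insert (g v) (f.erase (g x))) : ℝ) -
        (lk G (insert (g v) (f.erase (g x))) ∩ C.erase (g v)).card) := by
        rw [sum_product]
        exact add_le_add hFq (sum_le_sum fun v hv => sum_le_sum fun x hx => hFp v hv x hx)
    _ = (1 : ℝ) / ((dg G f : ℝ) - H.card + 1) +
      ∑ c ∈ C, ∑ x ∈ f, (1 : ℝ) /
        ((dg G (insert c (f.erase x)) : ℝ) -
          (lk G (insert c (f.erase x)) ∩ C.erase c).card) := by
        congr 1
        rw [← hWimg, sum_image (fun a ha b hb hab => hginj (by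
          exact mem_coe.2 (mem_sdiff.1 ha).1) (mem_coe.2 (mem_sdiff.1 hb).1) hab)]
        refine sum_congr rfl fun v hv => ?_
        rw [← hqimg, sum_image (fun a ha b hb hab => by
          rw [hgq a ha, hgq b hb] at hab
          exact hg1 ha hb hab)]
    _ < 1 := hlt

end MP_182bbb_co.AR.H30
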